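import Pool.Agent.N115.JT.Stm

/-!
# JT/4: finitely many maps are enough

A maximal algebraically independent subset of the union of the sets `V i` is finite, and each of
its elements is in one of the sets `V i`.
-/

set_option autoImplicit false

open Algebra

namespace Pool.Agent.N966.JT

theorem alg_mono {k Ω : Type} [Field k] [Field Ω] [Algebra k Ω] {B W : Set Ω} (h : B ⊆ W)
    {x : Ω} (hx : IsAlgebraic (Algebra.adjoin k B) x) :
    IsAlgebraic (IntermediateField.adjoin k W) x := by
  obtain ⟨p, hp0, hp⟩ := hx
  have hle : Algebra.adjoin k B ≤ (IntermediateField.adjoin k W).toSubalgebra :=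
    (Algebra.adjoin_mono h).trans (IntermediateField.algebra_adjoin_le_adjoin k W)
  let f : Algebra.adjoin k B →ₐ[k] (IntermediateField.adjoin k W).toSubalgebra :=
    Subalgebra.inclusion hle
  have hf : Function.Injective f := Subalgebra.inclusion_injective hle
  let g : Algebra.adjoin k B →+* IntermediateField.adjoin k W := f.toRingHom
  refine ⟨p.map g, ?_, ?_⟩
  · intro h0
    exact hp0 ((Polynomial.map_eq_zero_iff (f := g) hf).mp h0)
  · rw [Polynomial.aeval_def, Polynomial.eval₂_map]
    rw [Polynomial.aeval_def] at hp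
    exact hp

theorem select : Pool.Agent.N115.JT.Select := by
  classical
  intro k Ω _ _ _ D hD ι V s hs
  rcases hs with hs | ⟨hfin, hs⟩
  · let W : Set Ω := ⋃ i, V i
    obtain ⟨B, hB⟩ := (AlgebraicIndependent.matroid k Ω).exists_isBasis W
    obtain ⟨hBi, hBW, hBa⟩ := AlgebraicIndependent.matroid_isBasis_iff.mp hB
    have hcard : Cardinal.mk B ≤ (D : Cardinal) := by
      rw [← hD]
      exact AlgebraicIndependent.cardinalMk_le_trdeg hBi
    have hBfin : B.Finite := by
      rw [← Cardinal.lt_aleph0_iff_set_finite]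
      exact hcard.trans_lt (Cardinal.natCast_lt_aleph0)
    have hch : ∀ b : Ω, ∃ I : Finset ι, I.card ≤ 1 ∧ (b ∈ B → b ∈ ⋃ i ∈ I, V i) := by
      intro b
      by_cases hb : b ∈ B
      · obtain ⟨i, hi⟩ := Set.mem_iUnion.mp (hBW hb)
        exact ⟨{i}, by simp, fun _ => by simpa using hi⟩
      · exact ⟨∅, by simp, fun h => absurd h hb⟩
    choose J hJ1 hJ2 using hch
    refine ⟨hBfin.toFinset.biUnion J, ?_, ?_⟩
    · refine (Finset.card_biUnion_le).trans ?_
      refine (Finset.sum_le_sum fun b _ => hJ1 b).trans ?_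
      rw [Finset.sum_const, smul_eq_mul, mul_one]
      refine le_trans ?_ hs
      have : Cardinal.mk B = (hBfin.toFinset.card : Cardinal) := by
        rw [← Cardinal.mk_coe_finset]
        congr 1
        simp
      rw [this] at hcard
      exact_mod_cast hcard
    · intro i x hx
      have hxW : x ∈ W := Set.mem_iUnion.mpr ⟨i, hx⟩
      refine alg_mono ?_ (hBa x hxW)
      intro b hb
      have := hJ2 b hb
      simp only [Set.mem_iUnion] at this ⊢
      obtain ⟨j, hj, hbj⟩ := this
      exact ⟨j, Finset.mem_biUnion.mpr ⟨b, hBfin.mem_toFinset.mpr hb, hj⟩, hbj⟩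
  · have := Fintype.ofFinite ι
    refine ⟨Finset.univ, ?_, ?_⟩
    · rw [Finset.card_univ, ← Nat.card_eq_fintype_card]
      exact hs
    · intro i x hx
      have hm : x ∈ IntermediateField.adjoin k (⋃ i ∈ (Finset.univ : Finset ι), V i) := by
        apply IntermediateField.subset_adjoin
        simp only [Set.mem_iUnion]
        exact ⟨i, Finset.mem_univ i, hx⟩
      exact isAlgebraic_algebraMap
        (⟨x, hm⟩ : IntermediateField.adjoin k (⋃ i ∈ (Finset.univ : Finset ι), V i))

end Pool.Agent.N966.JT

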